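import Pool.Agent.H44.GW5

open Pool.Agent.H44.GW

namespace Pool.Agent.Results.MP_c15531_pr.Drift

/-- An irreducible transitive walk on the integers without local survival, with two extinction
vectors and uncountably many other fixed points. -/
theorem result : ∃ μ : ℤ → PMF (ℤ →₀ ℕ), Irred μ ∧ (∀ x y, ∃ γ, IsAut μ γ ∧ γ x = y) ∧
    (∀ x, qExt μ {x} = 1) ∧ Set.range (qExt μ) = {0, 1} ∧
    ¬(Fix μ \ Set.range (qExt μ)).Countable :=
  ⟨BZ.μ, BZ_irred, fun x y => ⟨Equiv.addRight (y - x), BZ_aut _, by simp⟩,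
    fun _ => BZ_one bddAbove_singleton, BZ_range,
    diff_uncountable BZ_card (by rw [BZ_range]; exact (Set.toFinite _).countable)⟩

end Pool.Agent.Results.MP_c15531_pr.Drift
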